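import Pool.Agent.AML.X.Defs

/-! The general definitions of the final statement are in `Pool.Agent.AML.Basic`. -/
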