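import Pool.Agent.AML.Z.Defs

/-! [AML-Z1] The four matrices are primitive hyperbolic and pairwise non conjugate in `SL(2,ℤ)`.

Primitive: traces `4, 4, 10, 10`. Suppose `A = ± B^n` (`t = trace B ∈ ℤ`). `n = 0`: `A = ±1`, trace `±2`. `n ≥ 2`: let `s_n = trace (B^n)`, `s_0 = 2`, `s_1 = t`,
`s_{n+1} = t s_n - s_{n-1}` (Cayley-Hamilton `B² = t B - 1`). If `|t| ≤ 2` then `|s_n| ≤ 2` for all `n` (for `t = 0, ±1, ±2` the sequence is explicit / periodic or
`±2`), contradiction. If `|t| ≥ 3` then `|s_n| ≥ t² - 2 ≥ 7` for `n ≥ 2` (`|s_{n+1}| ≥ |t||s_n| - |s_{n-1}|`, the sequence `|s_n|` is increasing), which excludes trace `4`; for trace `10`: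
`|s_2| = t² - 2 ≠ 10` (12 is not a square), and for `n ≥ 3`, `|s_n| ≥ |s_3| = |t|³ - 3|t| ≥ 18 > 10`. So `n = 1`.
Non conjugate: conjugate matrices have the same trace; for the pairs `A1, A2` and `A3, A4` use the quadratic form `q_A(v) = det (v, A v) = c x² - (a - d) x y - b y²`
(`q_{γAγ⁻¹}(γ v) = q_A(v)`): `q_{A1} = 2x² + 2xy - y²` takes the value `-1` at `(0, 1)`, and `q_{A2} = x² + 2xy - 2y² = (x + y)² - 3y²` does not take the value `-1` (mod 3);
`q_{A3} = 4x² + 8xy - 2y²` takes the value `-2` at `(0,1)`, `q_{A4} = 2x² + 8xy - 4y² = 2((x + 2y)² - 6y²)` does not take the value `-2` (mod 3). -/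

set_option linter.style.longLine false

open Matrix Topology
open scoped MatrixGroups

namespace Pool.AML

/-- the trace sequence. -/
theorem Z1_seq {t : ℤ} {s : ℕ → ℤ} (h0 : s 0 = 2) (h1 : s 1 = t) (hr : ∀ n, s (n + 2) = t * s (n + 1) - s n)
    {n : ℕ} (hn : |s n| = 4 ∨ |s n| = 10) : n = 1 := by
  by_cases ht : |t| ≤ 2
  · exfalso
    have key : ∀ n, |s n| ≤ 2 := by
      rw [abs_le] at ht
      obtain ⟨ht1, ht2⟩ := ht
      have hcase : t = -2 ∨ t = -1 ∨ t = 0 ∨ t = 1 ∨ t = 2 := by omega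
      rcases hcase with rfl | rfl | rfl | rfl | rfl
      · have : ∀ n, (s n = 2 ∧ s (n + 1) = -2) ∨ (s n = -2 ∧ s (n + 1) = 2) := by
          intro n
          induction n with
          | zero => left; exact ⟨h0, h1⟩
          | succ n ih =>
            have : s (n + 1 + 1) = (-2) * s (n + 1) - s n := hr n
            rcases ih with ⟨a, b⟩ | ⟨a, b⟩ <;> rw [a, b] at this <;> omega
        intro n
        rcases this n with ⟨a, -⟩ | ⟨a, -⟩ <;> rw [a] <;> norm_num
      · have : ∀ n, (s n = 2 ∧ s (n + 1) = -1) ∨ (s n = -1 ∧ s (n + 1) = -1) ∨ (s n = -1 ∧ s (n + 1) = 2) := by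
          intro n
          induction n with
          | zero => left; exact ⟨h0, h1⟩
          | succ n ih =>
            have : s (n + 1 + 1) = (-1) * s (n + 1) - s n := hr n
            rcases ih with ⟨a, b⟩ | ⟨a, b⟩ | ⟨a, b⟩ <;> rw [a, b] at this <;> omega
        intro n
        rcases this n with ⟨a, -⟩ | ⟨a, -⟩ | ⟨a, -⟩ <;> rw [a] <;> norm_num
      · have : ∀ n, (s n = 2 ∧ s (n + 1) = 0) ∨ (s n = 0 ∧ s (n + 1) = -2) ∨ (s n = -2 ∧ s (n + 1) = 0) ∨
            (s n = 0 ∧ s (n + 1) = 2) := by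
          intro n
          induction n with
          | zero => left; exact ⟨h0, h1⟩
          | succ n ih =>
            have : s (n + 1 + 1) = 0 * s (n + 1) - s n := hr n
            rcases ih with ⟨a, b⟩ | ⟨a, b⟩ | ⟨a, b⟩ | ⟨a, b⟩ <;> rw [a, b] at this <;> omega
        intro n
        rcases this n with ⟨a, -⟩ | ⟨a, -⟩ | ⟨a, -⟩ | ⟨a, -⟩ <;> rw [a] <;> norm_num
      · have : ∀ n, (s n = 2 ∧ s (n + 1) = 1) ∨ (s n = 1 ∧ s (n + 1) = -1) ∨ (s n = -1 ∧ s (n + 1) = -2) ∨
            (s n = -2 ∧ s (n + 1) = -1) ∨ (s n = -1 ∧ s (n + 1) = 1) ∨ (s n = 1 ∧ s (n + 1) = 2) := by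
          intro n
          induction n with
          | zero => left; exact ⟨h0, h1⟩
          | succ n ih =>
            have : s (n + 1 + 1) = 1 * s (n + 1) - s n := hr n
            rcases ih with ⟨a, b⟩ | ⟨a, b⟩ | ⟨a, b⟩ | ⟨a, b⟩ | ⟨a, b⟩ | ⟨a, b⟩ <;> rw [a, b] at this <;> omega
        intro n
        rcases this n with ⟨a, -⟩ | ⟨a, -⟩ | ⟨a, -⟩ | ⟨a, -⟩ | ⟨a, -⟩ | ⟨a, -⟩ <;> rw [a] <;> norm_num
      · have : ∀ n, s n = 2 ∧ s (n + 1) = 2 := by
          intro n
          induction n with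
          | zero => exact ⟨h0, h1⟩
          | succ n ih =>
            have : s (n + 1 + 1) = 2 * s (n + 1) - s n := hr n
            obtain ⟨a, b⟩ := ih
            rw [a, b] at this
            omega
        intro n
        rw [(this n).1]; norm_num
    have := key n
    omega
  · push Not at ht
    have hmono : ∀ n, |s n| ≤ |s (n + 1)| := by
      intro n
      induction n with
      | zero =>
        rw [h0, zero_add, h1]
        norm_num
        omega
      | succ n ih =>
        have e := hr n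
        have h2 : |t| * |s (n + 1)| ≤ |s (n + 2)| + |s n| := by
          rw [← abs_mul]
          have : t * s (n + 1) = s (n + 2) + s n := by rw [e]; ring
          rw [this]
          exact abs_add_le _ _
        have h3 : 3 * |s (n + 1)| ≤ |t| * |s (n + 1)| :=
          mul_le_mul_of_nonneg_right (by omega) (abs_nonneg _)
        have h4 := abs_nonneg (s (n + 1))
        show |s (n + 1)| ≤ |s (n + 2)|
        linarith
    have h2 : s 2 = t * t - 2 := by
      have := hr 0
      rw [zero_add, zero_add, h1, h0] at this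
      exact this
    have h3 : s 3 = t * (t * t - 2) - t := by
      have := hr 1
      rw [show 1 + 2 = 3 from rfl, show 1 + 1 = 2 from rfl, h1, h2] at this
      exact this
    have ht3 : 3 ≤ |t| := by omega
    have htt : t * t = |t| * |t| := (abs_mul_abs_self t).symm
    rcases Nat.lt_or_ge n 3 with hn3 | hn3
    · interval_cases n
      · rw [h0] at hn
        norm_num at hn
      · rfl
      · exfalso
        rw [h2, htt] at hn
        set a := |t| with ha
        have h5 : 0 ≤ a * a - 2 := by nlinarith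
        rw [abs_of_nonneg h5] at hn
        rcases le_or_gt a 3 with h6 | h6
        · have : a = 3 := by omega
          rw [this] at hn
          norm_num at hn
        · have : 16 ≤ a * a := by nlinarith
          omega
    · exfalso
      have h5 : 18 ≤ |s 3| := by
        have e : s 3 = t * (t * t - 3) := by rw [h3]; ring
        rw [e, abs_mul, htt]
        set a := |t| with ha
        have h6 : 6 ≤ a * a - 3 := by nlinarith
        have h7 : 6 ≤ |a * a - 3| := h6.trans (le_abs_self _)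
        nlinarith
      have h6 : ∀ m, |s 3| ≤ |s (3 + m)| := by
        intro m
        induction m with
        | zero => exact le_rfl
        | succ m ih => exact ih.trans (hmono (3 + m))
      obtain ⟨m, rfl⟩ := Nat.exists_eq_add_of_le hn3
      have := h6 m
      omega

theorem Z1_tr (B : SL(2, ℤ)) (n : ℕ) :
    (B ^ (n + 2)).1.trace = B.1.trace * (B ^ (n + 1)).1.trace - (B ^ n).1.trace := by
  have hd : B.1 0 0 * B.1 1 1 - B.1 0 1 * B.1 1 0 = 1 := by
    have := B.2
    rw [Matrix.det_fin_two] at this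
    exact this
  have e1 : (B ^ (n + 1)).1 = (B ^ n).1 * B.1 := by rw [pow_succ]; rfl
  have e2 : (B ^ (n + 2)).1 = (B ^ n).1 * B.1 * B.1 := by rw [pow_succ, pow_succ]; rfl
  rw [e1, e2]
  simp only [Matrix.trace_fin_two, Matrix.mul_apply, Fin.sum_univ_two]
  linear_combination (-((B ^ n).1 0 0) - (B ^ n).1 1 1) * hd

theorem Z1_prim {A : SL(2, ℤ)} (hA : A.1.trace = 4 ∨ A.1.trace = 10) : IsPrimHyp A := by
  refine ⟨by rcases hA with h | h <;> rw [h] <;> norm_num, fun B n h => ?_⟩
  refine Z1_seq (t := B.1.trace) (s := fun n => (B ^ n).1.trace) ?_ ?_ (Z1_tr B) ?_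
  · show (B ^ 0).1.trace = 2
    rw [pow_zero]
    simp [Matrix.trace_fin_two]
  · show (B ^ 1).1.trace = _
    rw [pow_one]
  · show |(B ^ n).1.trace| = 4 ∨ |(B ^ n).1.trace| = 10
    rcases h with h | h
    · rw [← h]
      rcases hA with h | h <;> rw [h] <;> norm_num
    · have e : (B ^ n).1.trace = -A.1.trace := by
        rw [h]
        simp
      rw [e, abs_neg]
      rcases hA with h | h <;> rw [h] <;> norm_num

theorem prim_S4 (A : SL(2, ℤ)) (hA : A ∈ S4) : IsPrimHyp A := by
  apply Z1_prim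
  simp only [S4, Finset.mem_insert, Finset.mem_singleton] at hA
  rcases hA with rfl | rfl | rfl | rfl
  · left; simp [A1, Matrix.trace_fin_two]
  · left; simp [A2, Matrix.trace_fin_two]
  · right; simp [A3, Matrix.trace_fin_two]
  · right; simp [A4, Matrix.trace_fin_two]

theorem Z1_mod (m w : ℤ) (h : m * m = 3 * w - 1) : False := by
  have h3 : m * m % 3 = 0 ∨ m * m % 3 = 1 := by
    rcases (by omega : m % 3 = 0 ∨ m % 3 = 1 ∨ m % 3 = 2) with h | h | h <;> simp [Int.mul_emod, h]
  omega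

/-- entries of the conjugation equation. -/
theorem Z1_conj {A B : SL(2, ℤ)} (h : IsConj A B) : ∃ x y z w : ℤ, x * w - y * z = 1 ∧
    x * A.1 0 0 + y * A.1 1 0 = B.1 0 0 * x + B.1 0 1 * z ∧
    x * A.1 0 1 + y * A.1 1 1 = B.1 0 0 * y + B.1 0 1 * w ∧
    z * A.1 0 0 + w * A.1 1 0 = B.1 1 0 * x + B.1 1 1 * z ∧
    z * A.1 0 1 + w * A.1 1 1 = B.1 1 0 * y + B.1 1 1 * w := by
  obtain ⟨c, hc⟩ := isConj_iff.1 h
  have e : c * A = B * c := by rw [← hc]; group
  have e' : c.1 * A.1 = B.1 * c.1 := congrArg Subtype.val e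
  have hd := c.2
  rw [Matrix.det_fin_two] at hd
  refine ⟨c.1 0 0, c.1 0 1, c.1 1 0, c.1 1 1, hd, ?_, ?_, ?_, ?_⟩
  · have := congrFun (congrFun e' 0) 0
    rwa [Matrix.mul_apply, Matrix.mul_apply, Fin.sum_univ_two, Fin.sum_univ_two] at this
  · have := congrFun (congrFun e' 0) 1
    rwa [Matrix.mul_apply, Matrix.mul_apply, Fin.sum_univ_two, Fin.sum_univ_two] at this
  · have := congrFun (congrFun e' 1) 0
    rwa [Matrix.mul_apply, Matrix.mul_apply, Fin.sum_univ_two, Fin.sum_univ_two] at this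
  · have := congrFun (congrFun e' 1) 1
    rwa [Matrix.mul_apply, Matrix.mul_apply, Fin.sum_univ_two, Fin.sum_univ_two] at this

theorem Z1_12 (h : IsConj A1 A2) : False := by
  obtain ⟨x, y, z, w, hd, h1, h2, h3, h4⟩ := Z1_conj h
  simp [A1, A2] at h1 h2 h3 h4
  have hz : z = y := by linarith
  have hx : x = 2 * w - 2 * y := by linarith
  subst hz
  subst hx
  exact Z1_mod (w + z) (w * w) (by linear_combination -hd)

theorem Z1_34 (h : IsConj A3 A4) : False := by
  obtain ⟨x, y, z, w, hd, h1, h2, h3, h4⟩ := Z1_conj h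
  simp [A3, A4] at h1 h2 h3 h4
  have hz : z = y := by linarith
  have hx : x = 2 * w - 4 * y := by linarith
  subst hz
  subst hx
  have h5 : 2 * ((w - z) * (w - z)) = 3 * (z * z) + 1 := by linear_combination hd
  have h3 : (w - z) * (w - z) % 3 = 0 ∨ (w - z) * (w - z) % 3 = 1 := by
    rcases (by omega : (w - z) % 3 = 0 ∨ (w - z) % 3 = 1 ∨ (w - z) % 3 = 2) with h | h | h <;>
      simp [Int.mul_emod, h]
  omega

theorem Z1_tr_conj {A B : SL(2, ℤ)} (h : IsConj A B) : A.1.trace = B.1.trace := by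
  obtain ⟨c, hc⟩ := isConj_iff.1 h
  rw [← hc]
  show A.1.trace = (c.1 * A.1 * (c⁻¹).1).trace
  rw [Matrix.trace_mul_comm, ← Matrix.mul_assoc]
  have : (c⁻¹).1 * c.1 = 1 := by
    have := congrArg Subtype.val (inv_mul_cancel c)
    exact this
  rw [this, Matrix.one_mul]

theorem nonconj_S4 (A : SL(2, ℤ)) (hA : A ∈ S4) (B : SL(2, ℤ)) (hB : B ∈ S4) (h : IsConj A B) : A = B := by
  have ht := Z1_tr_conj h
  simp only [S4, Finset.mem_insert, Finset.mem_singleton] at hA hB
  rcases hA with rfl | rfl | rfl | rfl <;> rcases hB with rfl | rfl | rfl | rfl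
  · rfl
  · exact (Z1_12 h).elim
  · simp [A1, A3, Matrix.trace_fin_two] at ht
  · simp [A1, A4, Matrix.trace_fin_two] at ht
  · exact (Z1_12 h.symm).elim
  · rfl
  · simp [A2, A3, Matrix.trace_fin_two] at ht
  · simp [A2, A4, Matrix.trace_fin_two] at ht
  · simp [A3, A1, Matrix.trace_fin_two] at ht
  · simp [A3, A2, Matrix.trace_fin_two] at ht
  · rfl
  · exact (Z1_34 h).elim
  · simp [A4, A1, Matrix.trace_fin_two] at ht
  · simp [A4, A2, Matrix.trace_fin_two] at ht
  · exact (Z1_34 h.symm).elim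
  · rfl

end Pool.AML
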