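import Pool.Agent.AML.Z.Defs

/-! [AML-Z2] `SL(2, O_2) = ` image of `SL(2, ℤ[√-2])`: the ring of integers of `ℚ(√-2)` is `ℤ[√-2]`.

`adjoin ℚ {i√2}`: every element is `a + b i√2` with `a, b ∈ ℚ` (the set of such numbers is a subfield containing `i√2`:
`IntermediateField.adjoin_le_iff`, or `adjoin_simple` with the minimal polynomial `X² + 2`). If `z = a + b i√2` is integral over `ℤ` then so are `z̄ = a - b i√2`
(complex conjugation), `z + z̄ = 2a` and `z z̄ = a² + 2b²`, rational and integral over `ℤ`, hence integers (`IsIntegrallyClosed ℤ`,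
`IsInteger_of_is_root..`/`IsIntegrallyClosed.isIntegral_iff`). `(2a)² + 2 (2b)² = 4 N ∈ 4ℤ`, `m = 2a ∈ ℤ`, `n = 2b`: `2 n² = 4N - m²` is an integer, so `n` is an integer (`n ∈ ℚ`, `2 n² ∈ ℤ`: if
`n = p/q` in lowest terms then `q² ∣ 2`, `q = 1`), `m² + 2n² ≡ 0 mod 4` forces `m`, `n` even, so `a, b ∈ ℤ`. `toC ⟨a, b⟩ = a + b i√2` (`Zsqrtd.lift`). Conversely `toC` of an element is
integral (image of an integral element: `ℤ[√-2]` is integral over `ℤ`) and in the field. For matrices: choose the entries in `O2`, the determinant is one by injectivity of `toC`. -/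

set_option linter.style.longLine false

open Matrix Topology
open scoped MatrixGroups

namespace Pool.AML

/-- `θ = i √2`. -/
theorem Z2_sq : (Complex.I * (Real.sqrt 2 : ℂ)) * (Complex.I * (Real.sqrt 2 : ℂ)) = -2 := by
  rw [toC_aux]; norm_num

theorem toC_val (z : O2) : toC z = (z.re : ℂ) + (z.im : ℂ) * (Complex.I * (Real.sqrt 2 : ℂ)) := by
  simp [toC, Zsqrtd.lift]

theorem Z2_inj : Function.Injective toC := by
  intro x y h
  rw [toC_val, toC_val] at h
  have hre := congrArg Complex.re h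
  have him := congrArg Complex.im h
  simp at hre him
  exact Zsqrtd.ext hre him

theorem Z2_int_theta : IsIntegral ℤ (Complex.I * (Real.sqrt 2 : ℂ)) := by
  refine IsIntegral.of_pow (n := 2) (by norm_num) ?_
  rw [pow_two, Z2_sq]
  exact_mod_cast (isIntegral_algebraMap (R := ℤ) (A := ℂ) (x := (-2 : ℤ)))

theorem Z2_int (n : ℤ) : IsIntegral ℤ (n : ℂ) := by
  have := isIntegral_algebraMap (R := ℤ) (A := ℂ) (x := n)
  simpa using this

/-- elements of the field. -/
theorem Z2_adj {z : ℂ} (h1 : z ∈ Algebra.adjoin ℚ {Complex.I * (Real.sqrt 2 : ℂ)}) :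
    ∃ a b : ℚ, z = (a : ℂ) + (b : ℂ) * (Complex.I * (Real.sqrt 2 : ℂ)) := by
  induction h1 using Algebra.adjoin_induction with
  | mem x hx =>
    rw [Set.mem_singleton_iff] at hx
    exact ⟨0, 1, by rw [hx]; simp⟩
  | algebraMap r => exact ⟨r, 0, by simp⟩
  | add x y _ _ hx hy =>
    obtain ⟨a, b, rfl⟩ := hx
    obtain ⟨c, d, rfl⟩ := hy
    exact ⟨a + c, b + d, by push_cast; ring⟩
  | mul x y _ _ hx hy =>
    obtain ⟨a, b, rfl⟩ := hx
    obtain ⟨c, d, rfl⟩ := hy
    exact ⟨a * c - 2 * b * d, a * d + b * c, by push_cast; linear_combination ((b : ℂ) * d) * Z2_sq⟩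

theorem Z2_field {z : ℂ} (hz : z ∈ IntermediateField.adjoin ℚ {Complex.I * (Real.sqrt 2 : ℂ)}) :
    ∃ a b : ℚ, z = (a : ℂ) + (b : ℂ) * (Complex.I * (Real.sqrt 2 : ℂ)) := by
  have hint : IsIntegral ℚ (Complex.I * (Real.sqrt 2 : ℂ)) := Z2_int_theta.tower_top
  have h1 : z ∈ (IntermediateField.adjoin ℚ {Complex.I * (Real.sqrt 2 : ℂ)}).toSubalgebra := hz
  rw [IntermediateField.adjoin_simple_toSubalgebra_of_isAlgebraic hint.isAlgebraic] at h1
  exact Z2_adj h1

/-- a rational number which is integral in `ℂ` is an integer. -/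
theorem Z2_rat {q : ℚ} (h : IsIntegral ℤ ((q : ℚ) : ℂ)) : ∃ m : ℤ, (m : ℚ) = q := by
  have h1 : IsIntegral ℤ (algebraMap ℚ ℂ q) := by simpa using h
  rw [isIntegral_algebraMap_iff (algebraMap ℚ ℂ).injective] at h1
  obtain ⟨m, hm⟩ := IsIntegrallyClosed.isIntegral_iff.1 h1
  exact ⟨m, by simpa using hm⟩

theorem Z2_even {k : ℤ} (h : 2 ∣ k * k) : 2 ∣ k := by
  rcases (Int.prime_two.dvd_mul).1 h with h | h <;> exact h

theorem Z2_arith {m k N : ℤ} (h : 8 * N = 2 * (m * m) + k * k) : ∃ m' k' : ℤ, m = 2 * m' ∧ k = 4 * k' := by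
  obtain ⟨k1, rfl⟩ := Z2_even (k := k) (by omega)
  have h1 : 4 * N = m * m + 2 * (k1 * k1) := by linarith
  obtain ⟨m', rfl⟩ := Z2_even (k := m) (by omega)
  have h2 : 2 * N = 2 * (m' * m') + k1 * k1 := by linarith
  obtain ⟨k', rfl⟩ := Z2_even (k := k1) (by omega)
  exact ⟨m', k', rfl, by ring⟩

theorem integral_iff (z : ℂ) : (IsIntegral ℤ z ∧ z ∈ IntermediateField.adjoin ℚ {Complex.I * (Real.sqrt ((2 : ℕ) : ℝ) : ℂ)}) ↔
    ∃ x : O2, toC x = z := by
  have hcast : ((2 : ℕ) : ℝ) = 2 := by norm_num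
  rw [hcast]
  constructor
  · rintro ⟨hi, hz⟩
    obtain ⟨a, b, rfl⟩ := Z2_field hz
    set θ : ℂ := Complex.I * (Real.sqrt 2 : ℂ) with hθ
    have hsq : θ * θ = -2 := Z2_sq
    have hconj : (starRingEnd ℂ) θ = -θ := by
      rw [hθ, map_mul, Complex.conj_I, Complex.conj_ofReal]
      ring
    have hci : IsIntegral ℤ ((starRingEnd ℂ) ((a : ℂ) + (b : ℂ) * θ)) := map_isIntegral_int (starRingEnd ℂ) hi
    have hcv : (starRingEnd ℂ) ((a : ℂ) + (b : ℂ) * θ) = (a : ℂ) - (b : ℂ) * θ := by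
      rw [map_add, map_mul, hconj, map_ratCast, map_ratCast]
      ring
    rw [hcv] at hci
    obtain ⟨m, hm⟩ := Z2_rat (q := 2 * a) (by
      have e : ((2 * a : ℚ) : ℂ) = ((a : ℂ) + (b : ℂ) * θ) + ((a : ℂ) - (b : ℂ) * θ) := by
        push_cast
        ring
      rw [e]
      exact hi.add hci)
    obtain ⟨N, hN⟩ := Z2_rat (q := a * a + 2 * (b * b)) (by
      have e : ((a * a + 2 * (b * b) : ℚ) : ℂ) = ((a : ℂ) + (b : ℂ) * θ) * ((a : ℂ) - (b : ℂ) * θ) := by
        push_cast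
        linear_combination ((b : ℂ) * b) * hsq
      rw [e]
      exact hi.mul hci)
    obtain ⟨k, hk⟩ := Z2_rat (q := -4 * b) (by
      have e : ((-4 * b : ℚ) : ℂ) = (((a : ℂ) + (b : ℂ) * θ) - ((a : ℂ) - (b : ℂ) * θ)) * θ := by
        push_cast
        linear_combination (-2 * (b : ℂ)) * hsq
      rw [e]
      exact (hi.sub hci).mul Z2_int_theta)
    have h8 : 8 * N = 2 * (m * m) + k * k := by
      have : (8 * N : ℚ) = 2 * (m * m) + k * k := by
        rw [hm, hN, hk]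
        ring
      exact_mod_cast this
    obtain ⟨m', k', rfl, rfl⟩ := Z2_arith h8
    refine ⟨⟨m', -k'⟩, ?_⟩
    rw [toC_val]
    have ha : (m' : ℚ) = a := by push_cast at hm; linarith
    have hb : (-k' : ℚ) = b := by push_cast at hk; linarith
    have ha' : (m' : ℂ) = (a : ℂ) := by exact_mod_cast congrArg (fun q : ℚ => (q : ℂ)) ha
    have hb' : (-(k' : ℂ)) = (b : ℂ) := by
      have := congrArg (fun q : ℚ => (q : ℂ)) hb
      push_cast at this
      exact this
    show ((m' : ℤ) : ℂ) + ((-k' : ℤ) : ℂ) * θ = _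
    push_cast
    rw [ha', hb']
  · rintro ⟨x, rfl⟩
    rw [toC_val]
    refine ⟨(Z2_int _).add ((Z2_int _).mul Z2_int_theta), ?_⟩
    refine add_mem ?_ (mul_mem ?_ ?_)
    · exact intCast_mem _ _
    · exact intCast_mem _ _
    · exact IntermediateField.mem_adjoin_simple_self ℚ _

theorem SLO_two : SLO 2 = slC.range := by
  ext g
  constructor
  · intro hg
    have h1 : ∀ i j, ∃ x : O2, toC x = g.1 i j := fun i j => (integral_iff _).1 (hg i j)
    choose X hX using h1
    have hmap : toC.mapMatrix (Matrix.of X) = g.1 := by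
      ext i j
      exact hX i j
    have hdet : (Matrix.of X).det = 1 := by
      apply Z2_inj
      rw [RingHom.map_det, hmap, map_one]
      exact g.2
    exact ⟨⟨Matrix.of X, hdet⟩, Subtype.ext hmap⟩
  · rintro ⟨X, rfl⟩ i j
    exact (integral_iff _).2 ⟨X.1 i j, rfl⟩

end Pool.AML
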