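import Pool.Agent.AML.Z.Z1
import Pool.Agent.AML.Z.Z2
import Pool.Agent.AML.X.X7
import Pool.Agent.AML.G.G7
import Pool.Agent.AML.M.M8
import Pool.Agent.AML.H.Part

/-! # Final assembly. -/

set_option linter.style.longLine false

open Matrix Topology
open scoped MatrixGroups

namespace Pool.AML

/-- the complement of the link `{LLR, LRR, LLLLRR, LLRRRR}` is `Γ \ H3` with `Γ` of finite index in `SL(2, ℤ[√-2])`. -/
theorem main : ∃ Γ : Subgroup SL(2, ℂ), Γ ≤ slC.range ∧ Γ.relIndex slC.range ≠ 0 ∧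
    HasHolonomy {x : T1M // x ∉ modularLink S4} Γ := by
  obtain ⟨Γ, h1, h2, h3, h4, ⟨e⟩⟩ := HH.partH
  obtain ⟨e1⟩ := partX
  obtain ⟨e2⟩ := partG
  obtain ⟨e3⟩ := partM
  exact ⟨Γ, h1, h2, h3, h4, ⟨((e1.trans e2).trans e3.symm).trans e⟩⟩

theorem isModularLink_S4 : IsModularLink (modularLink S4) :=
  ⟨S4, ⟨A1, by simp [S4]⟩, prim_S4, fun A hA B hB h => nonconj_S4 A hA B hB h, rfl⟩

theorem final : ∃ L : Set T1M, IsModularLink L ∧ IsArithmeticOfType L 2 := by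
  obtain ⟨Γ, h1, h2, h3⟩ := main
  refine ⟨modularLink S4, isModularLink_S4, Γ, h3, 1, ?_⟩
  have hm : Γ.map (MulAut.conj (1 : SL(2, ℂ))).toMonoidHom = Γ := by
    rw [map_one]; exact Subgroup.map_id Γ
  rw [hm, SLO_two]
  refine ⟨h2, ?_⟩
  rw [Subgroup.relIndex_eq_one.2 h1]
  exact one_ne_zero

end Pool.AML
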